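import Mathlib

set_option autoImplicit false

/-!
Back and forth on the natural numbers.
-/

namespace Pool.Agent.H667.MF

/-- A system of partial maps with the extension properties contains a bijection. -/
theorem bf (E : ∀ n, (Fin n → ℕ) → (Fin n → ℕ) → Prop)
    (h0 : E 0 Fin.elim0 Fin.elim0)
    (forth : ∀ n v w, E n v w → ∀ c, ∃ d, E (n + 1) (Fin.snoc v c) (Fin.snoc w d))
    (back : ∀ n v w, E n v w → ∀ d, ∃ c, E (n + 1) (Fin.snoc v c) (Fin.snoc w d))
    (heq : ∀ n v w, E n v w → ∀ i j, v i = v j ↔ w i = w j) :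
    ∃ e : ℕ ≃ ℕ, ∀ (k : ℕ) (s : Fin k → ℕ), ∃ (n : ℕ) (v w : Fin n → ℕ) (f : Fin k → Fin n),
      E n v w ∧ (∀ i, v (f i) = s i) ∧ ∀ i, w (f i) = e (s i) := by
  classical
  let St : ℕ → Type := fun n => {q : (Fin n → ℕ) × (Fin n → ℕ) // E n q.1 q.2}
  have hstep : ∀ (n : ℕ) (q : St n), ∃ (q' : St (n + 1)) (x y : ℕ),
      q'.1.1 = Fin.snoc q.1.1 x ∧ q'.1.2 = Fin.snoc q.1.2 y ∧
      (n % 2 = 0 → x = n / 2) ∧ (n % 2 = 1 → y = n / 2) := by
    intro n q
    rcases Nat.mod_two_eq_zero_or_one n with h | h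
    · obtain ⟨d, hd⟩ := forth n _ _ q.2 (n / 2)
      exact ⟨⟨(Fin.snoc q.1.1 (n / 2), Fin.snoc q.1.2 d), hd⟩, n / 2, d, rfl, rfl,
        fun _ => rfl, fun h' => by omega⟩
    · obtain ⟨c, hc⟩ := back n _ _ q.2 (n / 2)
      exact ⟨⟨(Fin.snoc q.1.1 c, Fin.snoc q.1.2 (n / 2)), hc⟩, c, n / 2, rfl, rfl,
        fun h' => by omega, fun _ => rfl⟩
  choose N X Y hX hY hx hy using hstep
  let P : ∀ n, St n := fun n => Nat.rec (motive := fun n => St n) ⟨(Fin.elim0, Fin.elim0), h0⟩
    (fun n q => N n q) n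
  let v : ℕ → ℕ := fun n => X n (P n)
  let w : ℕ → ℕ := fun n => Y n (P n)
  have hP : ∀ n, (P n).1.1 = (fun i : Fin n => v i) ∧ (P n).1.2 = fun i : Fin n => w i := by
    intro n
    induction n with
    | zero => exact ⟨funext fun i => i.elim0, funext fun i => i.elim0⟩
    | succ n ih =>
      have e1 : (P (n + 1)).1.1 = Fin.snoc (P n).1.1 (v n) := hX n (P n)
      have e2 : (P (n + 1)).1.2 = Fin.snoc (P n).1.2 (w n) := hY n (P n)
      constructor
      · rw [e1, ih.1]
        funext i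
        refine Fin.lastCases ?_ (fun i => ?_) i
        · simp
        · simp
      · rw [e2, ih.2]
        funext i
        refine Fin.lastCases ?_ (fun i => ?_) i
        · simp
        · simp
  have hE : ∀ n, E n (fun i : Fin n => v i) (fun i : Fin n => w i) := by
    intro n
    have := (P n).2
    rw [(hP n).1, (hP n).2] at this
    exact this
  have hvw : ∀ i j, v i = v j ↔ w i = w j := fun i j =>
    heq _ _ _ (hE (max i j + 1)) ⟨i, by omega⟩ ⟨j, by omega⟩
  have hv : ∀ c, v (2 * c) = c := by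
    intro c
    have := hx (2 * c) (P (2 * c)) (by omega)
    show X (2 * c) (P (2 * c)) = c
    rw [this]; omega
  have hw : ∀ d, w (2 * d + 1) = d := by
    intro d
    have := hy (2 * d + 1) (P (2 * d + 1)) (by omega)
    show Y (2 * d + 1) (P (2 * d + 1)) = d
    rw [this]; omega
  have hbij : Function.Bijective fun c => w (2 * c) := by
    constructor
    · intro c c' h
      have := (hvw (2 * c) (2 * c')).2 h
      rw [hv, hv] at this
      exact this
    · intro d
      refine ⟨v (2 * d + 1), ?_⟩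
      have : w (2 * v (2 * d + 1)) = w (2 * d + 1) := (hvw _ _).1 (hv _)
      show w (2 * v (2 * d + 1)) = d
      rw [this, hw]
  refine ⟨Equiv.ofBijective _ hbij, fun k s => ?_⟩
  refine ⟨(Finset.univ.sup fun i => 2 * s i) + 1, _, _,
    fun i => ⟨2 * s i, ?_⟩, hE _, fun i => hv _, fun i => rfl⟩
  exact Nat.lt_succ_of_le (Finset.le_sup (f := fun i => 2 * s i) (Finset.mem_univ i))

end Pool.Agent.H667.MF
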