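import Pool.Agent.H667.MF.Up

set_option autoImplicit false

/-!
Every structure on `ℕ` has a countable homogeneous elementary extension.
-/

namespace Pool.Agent.H667.MF

open FirstOrder FirstOrder.Language

/-- Closing a countable set under countably many finitary operations. -/
theorem close {V : Type} (O : Finset V → Set V) (hO : ∀ X, (O X).Countable) (A0 : Set V)
    (hA : A0.Countable) : ∃ A : Set V, A0 ⊆ A ∧ A.Countable ∧ ∀ X : Finset V, ↑X ⊆ A → O X ⊆ A := by
  classical
  let step : Set V → Set V := fun A => A ∪ ⋃ X : Finset A, O (X.map (Function.Embedding.subtype _))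
  have hcnt : ∀ A : Set V, A.Countable → (step A).Countable := by
    intro A h
    have : Countable A := h.to_subtype
    exact h.union (Set.countable_iUnion fun X => hO _)
  let B : ℕ → Set V := fun k => step^[k] A0
  have hB : ∀ k, B (k + 1) = step (B k) := fun k => Function.iterate_succ_apply' step k A0
  have hmono : Monotone B := monotone_nat_of_le_succ fun k => by
    rw [hB]; exact Set.subset_union_left
  refine ⟨⋃ k, B k, Set.subset_iUnion B 0, Set.countable_iUnion fun k => ?_, fun X hX => ?_⟩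
  · induction k with
    | zero => exact hA
    | succ k ih => rw [hB]; exact hcnt _ ih
  · have h1 : ∃ k, (X : Set V) ⊆ B k := by
      have h2 : ∀ x ∈ X, ∃ k, x ∈ B k := fun x hx => Set.mem_iUnion.1 (hX hx)
      choose! f hf using h2
      exact ⟨X.sup f, fun x hx => hmono (Finset.le_sup (f := f) hx) (hf x hx)⟩
    obtain ⟨k, hk⟩ := h1
    refine Set.Subset.trans ?_ (Set.subset_iUnion B (k + 1))
    rw [hB]
    refine Set.Subset.trans ?_ Set.subset_union_right
    refine Set.Subset.trans ?_ (Set.subset_iUnion _ (X.subtype (· ∈ B k)))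
    have : (X.subtype (· ∈ B k)).map (Function.Embedding.subtype _) = X := by
      rw [Finset.subtype_map]
      exact Finset.filter_true_of_mem fun x hx => hk hx
    rw [this]

variable {L : FirstOrder.Language.{0, 0}}

theorem exists_var (hr : L.IsRelational) {m : ℕ} (t : L.Term (Empty ⊕ Fin m)) :
    ∃ j, t = Term.var (Sum.inr j) := by
  cases t with
  | var x =>
    cases x with
    | inl x => exact x.elim
    | inr j => exact ⟨j, rfl⟩
  | func f _ => exact (hr _).elim f

theorem comp_snoc {M N : Type} {n : ℕ} (f : M → N) (v : Fin n → M) (c : M) :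
    (fun i => f ((Fin.snoc v c : Fin (n + 1) → M) i)) =
      (Fin.snoc (fun i => f (v i)) (f c) : Fin (n + 1) → N) := by
  funext j
  refine Fin.lastCases ?_ (fun j => ?_) j
  · simp
  · simp

/-- The induced structure on the range of `g`. -/
@[reducible] def pull (hr : L.IsRelational) {M N : Type} (S : L.Structure N) (g : M → N) :
    L.Structure M where
  funMap := fun {n} f => (hr n).elim f
  RelMap := fun R s => S.RelMap R fun i => g (s i)

/-- The Tarski-Vaught test. -/
theorem tarski (hr : L.IsRelational) {M N : Type} (S : L.Structure N) (g : M → N)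
    (hg : Function.Injective g)
    (h : ∀ (n : ℕ) (φ : L.BoundedFormula Empty (n + 1)) (a : Fin n → M),
      (∃ y, Rz S φ (Fin.snoc (fun i => g (a i)) y : Fin (n + 1) → N)) →
        ∃ c, Rz S φ (Fin.snoc (fun i => g (a i)) (g c) : Fin (n + 1) → N)) (n : ℕ)
    (a : Fin n → M) : TpEq (pull hr S g) S a (fun i => g (a i)) := by
  intro φ
  induction φ with
  | falsum => exact Iff.rfl
  | @equal n t₁ t₂ =>
    obtain ⟨j, rfl⟩ := exists_var hr t₁
    obtain ⟨k, rfl⟩ := exists_var hr t₂
    show a j = a k ↔ g (a j) = g (a k)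
    exact hg.eq_iff.symm
  | @rel n l R ts =>
    choose s hs using fun i => exists_var hr (ts i)
    obtain rfl : ts = fun i => Term.var (Sum.inr (s i)) := funext hs
    exact Iff.rfl
  | imp φ ψ ih1 ih2 => exact imp_congr (ih1 a) (ih2 a)
  | @all n φ ih =>
    show (∀ c : M, Rz (pull hr S g) φ (Fin.snoc a c : Fin (n + 1) → M)) ↔
      ∀ y : N, Rz S φ (Fin.snoc (fun i => g (a i)) y : Fin (n + 1) → N)
    constructor
    · intro h1
      by_contra hcon
      push Not at hcon
      obtain ⟨y, hy⟩ := hcon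
      obtain ⟨c, hc⟩ := h n φ.not a ⟨y, (rz_not S φ _).2 hy⟩
      rw [rz_not] at hc
      apply hc
      have := (ih (Fin.snoc a c : Fin (n + 1) → M)).1 (h1 c)
      rw [comp_snoc] at this
      exact this
    · intro h1 c
      rw [ih, comp_snoc]
      exact h1 _

/-- Types of pairs of equal points. -/
theorem inj_of_tp {M N : Type} (S : L.Structure M) (S' : L.Structure N) (j : M → N)
    (h : ∀ (n : ℕ) (a : Fin n → M), TpEq S S' a (fun i => j (a i))) : Function.Injective j := by
  intro x y hxy
  have h1 := h 2 ![x, y] (.equal (Term.var (Sum.inr 0)) (Term.var (Sum.inr 1)))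
  exact h1.2 hxy

theorem ext (hr : L.IsRelational) (hc : ∀ n, Countable (L.BoundedFormula Empty n))
    (S : L.Structure ℕ) : ∃ (I : L.Structure ℕ) (j : ℕ → ℕ),
      (∀ (n : ℕ) (a : Fin n → ℕ), TpEq S I a (fun i => j (a i))) ∧ Homog I := by
  classical
  obtain ⟨V, S', δ, hδ, hel, hhom⟩ := up hc S
  have hD : ∀ (n : ℕ) (a b : Fin n → V) (c : V), ∃ d, TpEq S' S' a b →
      TpEq S' S' (Fin.snoc a c : Fin (n + 1) → V) (Fin.snoc b d : Fin (n + 1) → V) := by
    intro n a b c
    by_cases h : TpEq S' S' a b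
    · obtain ⟨d, hd⟩ := hhom n a b h c
      exact ⟨d, fun _ => hd⟩
    · exact ⟨c, fun h' => absurd h' h⟩
  choose D hD using hD
  have hW : ∀ (n : ℕ) (φ : L.BoundedFormula Empty (n + 1)) (a : Fin n → V), ∃ y,
      (∃ y, Rz S' φ (Fin.snoc a y : Fin (n + 1) → V)) →
        Rz S' φ (Fin.snoc a y : Fin (n + 1) → V) := by
    intro n φ a
    by_cases h : ∃ y, Rz S' φ (Fin.snoc a y : Fin (n + 1) → V)
    · obtain ⟨y, hy⟩ := h
      exact ⟨y, fun _ => hy⟩
    · exact ⟨δ 0, fun h' => absurd h' h⟩
  choose W hW using hW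
  let O : Finset V → Set V := fun X =>
    (⋃ n, Set.range fun p : (Fin n → X) × (Fin n → X) × X =>
      D n (fun i => (p.1 i : V)) (fun i => (p.2.1 i : V)) p.2.2) ∪
    ⋃ n, Set.range fun p : L.BoundedFormula Empty (n + 1) × (Fin n → X) =>
      W n p.1 fun i => (p.2 i : V)
  have hO : ∀ X, (O X).Countable := by
    intro X
    refine (Set.countable_iUnion fun n => Set.countable_range _).union
      (Set.countable_iUnion fun n => ?_)
    have := hc (n + 1)
    exact Set.countable_range _
  obtain ⟨A, hA0, hAc, hA⟩ := close O hO (Set.range δ) (Set.countable_range δ)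
  have hAD : ∀ (n : ℕ) (a b : Fin n → V) (c : V), (∀ i, a i ∈ A) → (∀ i, b i ∈ A) → c ∈ A →
      D n a b c ∈ A := by
    intro n a b c ha hb hcA
    let X : Finset V := Finset.univ.image a ∪ Finset.univ.image b ∪ {c}
    have hX : (X : Set V) ⊆ A := by
      intro x hx
      simp only [X, Finset.coe_union, Finset.coe_image, Finset.coe_univ, Set.image_univ,
        Finset.coe_singleton, Set.mem_union, Set.mem_range, Set.mem_singleton_iff] at hx
      rcases hx with (⟨i, rfl⟩ | ⟨i, rfl⟩) | rfl
      · exact ha i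
      · exact hb i
      · exact hcA
    have m1 : ∀ i, a i ∈ X := fun i => Finset.mem_union_left _
      (Finset.mem_union_left _ (Finset.mem_image_of_mem _ (Finset.mem_univ i)))
    have m2 : ∀ i, b i ∈ X := fun i => Finset.mem_union_left _
      (Finset.mem_union_right _ (Finset.mem_image_of_mem _ (Finset.mem_univ i)))
    have m3 : c ∈ X := Finset.mem_union_right _ (Finset.mem_singleton_self c)
    exact hA X hX (Or.inl (Set.mem_iUnion.2 ⟨n, ⟨(fun i => ⟨a i, m1 i⟩,
      fun i => ⟨b i, m2 i⟩, ⟨c, m3⟩), rfl⟩⟩))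
  have hAW : ∀ (n : ℕ) (φ : L.BoundedFormula Empty (n + 1)) (a : Fin n → V), (∀ i, a i ∈ A) →
      W n φ a ∈ A := by
    intro n φ a ha
    have hX : ((Finset.univ.image a : Finset V) : Set V) ⊆ A := by
      intro x hx
      simp only [Finset.coe_image, Finset.coe_univ, Set.image_univ, Set.mem_range] at hx
      obtain ⟨i, rfl⟩ := hx
      exact ha i
    exact hA _ hX (Or.inr (Set.mem_iUnion.2 ⟨n, ⟨(φ, fun i => ⟨a i,
      Finset.mem_image_of_mem _ (Finset.mem_univ i)⟩), rfl⟩⟩))
  have hAinf : Infinite A := Infinite.of_injective (fun n => (⟨δ n, hA0 ⟨n, rfl⟩⟩ : A))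
    fun m n h => hδ (congrArg Subtype.val h)
  have : Countable A := hAc.to_subtype
  obtain ⟨e⟩ : Nonempty (ℕ ≃ A) := nonempty_equiv_of_countable
  let g : ℕ → V := fun n => e n
  have hg : Function.Injective g := Subtype.val_injective.comp e.injective
  have hgA : ∀ x ∈ A, ∃ n, g n = x := fun x hx => ⟨e.symm ⟨x, hx⟩, by simp [g]⟩
  have hgm : ∀ n, g n ∈ A := fun n => (e n).2
  have htv := tarski hr S' g hg (by
    intro n φ a h
    obtain ⟨c, hc'⟩ := hgA _ (hAW n φ (fun i => g (a i)) fun i => hgm _)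
    exact ⟨c, by rw [hc']; exact hW n φ _ h⟩)
  choose j hj using fun n => hgA (δ n) (hA0 ⟨n, rfl⟩)
  refine ⟨pull hr S' g, j, fun n a φ => ?_, fun n a b hab c => ?_⟩
  · rw [hel n a φ, htv n (fun i => j (a i)) φ]
    have : (fun i => g (j (a i))) = fun i => δ (a i) := funext fun i => hj _
    rw [this]
  · have h1 : TpEq S' S' (fun i => g (a i)) (fun i => g (b i)) := fun φ =>
      ((htv n a φ).symm.trans (hab φ)).trans (htv n b φ)
    obtain ⟨d, hd⟩ := hgA _ (hAD n _ _ (g c) (fun i => hgm (a i)) (fun i => hgm (b i)) (hgm c))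
    refine ⟨d, fun φ => ?_⟩
    rw [htv _ _ φ, htv _ _ φ, comp_snoc, comp_snoc, hd]
    exact hD n _ _ (g c) h1 φ

end Pool.Agent.H667.MF
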