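import Pool.Agent.H667.MF.BF
import Pool.Agent.H667.MF.Ext
import Pool.Agent.H667.UF.Dich
import Pool.Graph.R_seed8.W921.VP.Mart
import Pool.Graph.R_pool_sql_team_seeded_ab47071d.TH74.Martin.BF

set_option autoImplicit false

/-!
The conjecture of Martin for theories in whose models every orbit of the automorphism group meets
only finitely many classes of interchangeable points.
-/

namespace Pool.Agent.H667.MF

open FirstOrder FirstOrder.Language
open Pool.Agent.W921.VP (Mods Isom Fm IsTp Eq1 Few Martin realize_iso fm_iso isom_move move_rel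
  sent_iff)
open Pool.Agent.H667.UF (FO)
open Pool.Agent.H667.FI (IsAut Sw sw_refl sw_symm sw_trans)
open Pool.Agent.H834V (rel)

variable {L : FirstOrder.Language.{0, 0}}

theorem tp_symm {M N : Type} {S : L.Structure M} {S' : L.Structure N} {n : ℕ} {a : Fin n → M}
    {b : Fin n → N} (h : TpEq S S' a b) : TpEq S' S b a := fun φ => (h φ).symm

theorem tp_trans {M N K : Type} {S : L.Structure M} {S' : L.Structure N} {S'' : L.Structure K}
    {n : ℕ} {a : Fin n → M} {b : Fin n → N} {c : Fin n → K} (h : TpEq S S' a b)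
    (h' : TpEq S' S'' b c) : TpEq S S'' a c := fun φ => (h φ).trans (h' φ)

theorem tp_comp (hr : L.IsRelational) {M N : Type} {S : L.Structure M} {S' : L.Structure N}
    {n m : ℕ} {a : Fin n → M} {b : Fin n → N} (h : TpEq S S' a b) (g : Fin m → Fin n) :
    TpEq S S' (fun i => a (g i)) (fun i => b (g i)) :=
  @Pool.Agent.TH74.Martin.EEq.comp L hr M N S S' n m a b h g

theorem tp_rel {M N : Type} {S : L.Structure M} {S' : L.Structure N} {n : ℕ} {a : Fin n → M}
    {b : Fin n → N} (h : TpEq S S' a b) {k : ℕ} (R : L.Relations k) (f : Fin k → Fin n) :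
    S.RelMap R (fun i => a (f i)) ↔ S'.RelMap R (fun i => b (f i)) :=
  h (.rel R fun i => Term.var (Sum.inr (f i)))

theorem tp_eq {M N : Type} {S : L.Structure M} {S' : L.Structure N} {n : ℕ} {a : Fin n → M}
    {b : Fin n → N} (h : TpEq S S' a b) (i j : Fin n) : a i = a j ↔ b i = b j :=
  h (.equal (Term.var (Sum.inr i)) (Term.var (Sum.inr j)))

theorem mods_iff {M : Type} (S : L.Structure M) (T : L.Theory) (a : Fin 0 → M) :
    Mods S T ↔ ∀ φ ∈ T, Rz S (φ : L.BoundedFormula Empty 0) a := by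
  unfold Mods
  rw [@FirstOrder.Language.Theory.model_iff L M S T]
  exact forall₂_congr fun φ _ => (sent_iff S φ a).symm

/-- Points with the same type in a homogeneous structure are in one orbit. -/
theorem homog_aut {I : L.Structure ℕ} (hI : Homog I) {x y : ℕ}
    (h : TpEq I I (fun _ : Fin 1 => x) (fun _ : Fin 1 => y)) :
    ∃ g : ℕ ≃ ℕ, IsAut (rel I) g ∧ g x = y := by
  have hc0 : ∀ z : ℕ, (Fin.cons z Fin.elim0 : Fin 1 → ℕ) = fun _ => z := by
    intro z; funext i
    have : i = 0 := Fin.fin_one_eq_zero i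
    subst this; rfl
  obtain ⟨e, he⟩ := bf (fun n v w => TpEq I I (Fin.cons x v : Fin (n + 1) → ℕ)
      (Fin.cons y w : Fin (n + 1) → ℕ))
    (by rw [hc0, hc0]; exact h)
    (by
      intro n v w hvw c
      obtain ⟨d, hd⟩ := hI _ _ _ hvw c
      refine ⟨d, ?_⟩
      rw [← Fin.cons_snoc_eq_snoc_cons, ← Fin.cons_snoc_eq_snoc_cons] at hd
      exact hd)
    (by
      intro n v w hvw c
      obtain ⟨d, hd⟩ := hI _ _ _ (tp_symm hvw) c
      refine ⟨d, ?_⟩
      rw [← Fin.cons_snoc_eq_snoc_cons, ← Fin.cons_snoc_eq_snoc_cons] at hd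
      exact tp_symm hd)
    (by
      intro n v w hvw i j
      exact tp_eq hvw i.succ j.succ)
  refine ⟨e, ?_, ?_⟩
  · intro k R s
    obtain ⟨n, v, w, f, h1, h2, h3⟩ := he k s
    have h4 := tp_rel h1 R fun i => (f i).succ
    simp only [Fin.cons_succ] at h4
    have e1 : (fun i => v (f i)) = s := funext h2
    have e2 : (fun i => w (f i)) = fun i => e (s i) := funext h3
    rw [e1, e2] at h4
    exact h4
  · obtain ⟨n, v, w, f, h1, h2, h3⟩ := he 1 fun _ => x
    have h4 := tp_eq h1 0 (f 0).succ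
    simp only [Fin.cons_zero, Fin.cons_succ] at h4
    rw [← h3 0]
    exact (h4.1 (h2 0).symm).symm

/-- In the models, the points of one type are in finitely many classes of interchangeable points. -/
theorem fin_sw (hr : L.IsRelational) (hc : ∀ n, Countable (L.BoundedFormula Empty n))
    {T : L.Theory} (hFO : ∀ S : L.Structure ℕ, Mods S T → FO (rel S)) (S : L.Structure ℕ)
    (hS : Mods S T) (x : ℕ) : ∃ D : Finset ℕ, ∀ y,
      TpEq S S (fun _ : Fin 1 => x) (fun _ : Fin 1 => y) → ∃ d ∈ D, Sw (rel S) y d := by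
  classical
  obtain ⟨I, j, hj, hI⟩ := ext hr hc S
  have hinj : Function.Injective j := inj_of_tp S I j hj
  have hIT : Mods I T := by
    rw [mods_iff I T (fun i => j ((Fin.elim0 : Fin 0 → ℕ) i))]
    intro φ hφ
    exact (hj 0 Fin.elim0 φ).1 ((mods_iff S T Fin.elim0).1 hS φ hφ)
  obtain ⟨F, hF⟩ := hFO I hIT (j x)
  have h1 : ∀ y, TpEq S S (fun _ : Fin 1 => x) (fun _ : Fin 1 => y) →
      ∃ t ∈ F, Sw (rel I) (j y) t := by
    intro y hy
    have h2 : TpEq I I (fun _ : Fin 1 => j x) (fun _ : Fin 1 => j y) :=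
      tp_trans (tp_symm (hj 1 fun _ => x)) (tp_trans hy (hj 1 fun _ => y))
    obtain ⟨g, hg, hgx⟩ := homog_aut hI h2
    obtain ⟨t, ht, ht'⟩ := hF g hg
    exact ⟨t, ht, hgx ▸ ht'⟩
  have h2 : ∀ y z, Sw (rel I) (j y) (j z) → Sw (rel S) y z := by
    intro y z hyz k R v
    have e1 : ∀ s : Fin k → ℕ, S.RelMap R s ↔ I.RelMap R fun i => j (s i) := fun s =>
      tp_rel (hj k s) R id
    show S.RelMap R v ↔ S.RelMap R fun i => Equiv.swap y z (v i)
    rw [e1, e1]
    have e2 : (fun i => j (Equiv.swap y z (v i))) = fun i => Equiv.swap (j y) (j z) (j (v i)) := by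
      funext i
      rw [hinj.swap_apply]
    rw [e2]
    exact hyz k R fun i => j (v i)
  refine ⟨F.image fun t => if h : ∃ z, Sw (rel I) (j z) t then h.choose else 0, fun y hy => ?_⟩
  obtain ⟨t, ht, ht'⟩ := h1 y hy
  have h : ∃ z, Sw (rel I) (j z) t := ⟨y, ht'⟩
  refine ⟨h.choose, Finset.mem_image.2 ⟨t, ht, dif_pos h⟩, ?_⟩
  exact h2 _ _ (sw_trans ht' (sw_symm h.choose_spec))

/-- The tuples satisfy the same formulas of `L₁(T)`. -/
def E1 (T : L.Theory) (S S' : L.Structure ℕ) (n : ℕ) (v w : Fin n → ℕ) : Prop :=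
  ∀ φ : Fm T n, φ.Sat S v ↔ φ.Sat S' w

/-- Finite conjunctions. -/
theorem conj_list {T : L.Theory} {n : ℕ} (χ : Fm T n) (ψ : ℕ → Fm T n) (l : List ℕ) :
    ∃ θ : Fm T n, ∀ (S : L.Structure ℕ) (a : Fin n → ℕ), θ.Sat S a ↔
      χ.Sat S a ∧ ∀ d ∈ l, (ψ d).Sat S a := by
  induction l with
  | nil => exact ⟨χ, fun S a => by simp⟩
  | cons d l ih =>
    obtain ⟨θ, h⟩ := ih
    refine ⟨.and (ψ d) θ, fun S a => ?_⟩
    show (ψ d).Sat S a ∧ θ.Sat S a ↔ _
    rw [h]
    simp only [List.mem_cons, forall_eq_or_imp]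
    exact ⟨fun h => ⟨h.2.1, h.1, h.2.2⟩, fun h => ⟨h.2.1, h.1, h.2.2⟩⟩

/-- One step. -/
theorem forth (hr : L.IsRelational) (hc : ∀ n, Countable (L.BoundedFormula Empty n))
    {T : L.Theory} (hFO : ∀ S : L.Structure ℕ, Mods S T → FO (rel S)) (S S' : L.Structure ℕ)
    (hS : Mods S T) (hS' : Mods S' T) (n : ℕ) (v w : Fin n → ℕ) (h : E1 T S S' n v w) (c : ℕ) :
    ∃ d, E1 T S S' (n + 1) (Fin.snoc v c) (Fin.snoc w d) := by
  classical
  by_contra hcon
  push Not at hcon
  have hsep : ∀ d, ∃ ψ : Fm T (n + 1), ψ.Sat S (Fin.snoc v c) ∧ ¬ ψ.Sat S' (Fin.snoc w d) := by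
    intro d
    have h1 := hcon d
    unfold E1 at h1
    push Not at h1
    obtain ⟨φ, hφ⟩ := h1
    rcases hφ with ⟨h2, h3⟩ | ⟨h2, h3⟩
    · exact ⟨φ, h2, h3⟩
    · exact ⟨.not φ, h2, fun h4 => h4 h3⟩
  choose ψ hψ1 hψ2 using hsep
  let p : Set (L.BoundedFormula Empty (n + 1)) := {φ | Rz S φ (Fin.snoc v c : Fin (n + 1) → ℕ)}
  have hp : IsTp T p := ⟨S, _, hS, rfl⟩
  -- the points of the type `p`
  have hQ : ∀ d, (Fm.tp p hp id).Sat S' (Fin.snoc w d : Fin (n + 1) → ℕ) →
      TpEq S S' (Fin.snoc v c : Fin (n + 1) → ℕ) (Fin.snoc w d : Fin (n + 1) → ℕ) := by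
    intro d hd φ
    constructor
    · exact fun h1 => hd φ h1
    · intro h1
      by_contra h2
      have h3 : φ.not ∈ p := (rz_not S φ _).2 h2
      exact (rz_not S' φ _).1 (hd _ h3) h1
  have hD : ∃ D : Finset ℕ, ∀ d, (Fm.tp p hp id).Sat S' (Fin.snoc w d : Fin (n + 1) → ℕ) →
      ∃ t ∈ D, Sw (rel S') d t := by
    by_cases hex : ∃ d, (Fm.tp p hp id).Sat S' (Fin.snoc w d : Fin (n + 1) → ℕ)
    · obtain ⟨d0, hd0⟩ := hex
      obtain ⟨D, hD⟩ := fin_sw hr hc hFO S' hS' d0
      refine ⟨D, fun d hd => hD d ?_⟩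
      have h1 := tp_comp hr (tp_trans (tp_symm (hQ d0 hd0)) (hQ d hd))
        (fun _ : Fin 1 => Fin.last n)
      simp only [Fin.snoc_last] at h1
      exact h1
    · exact ⟨∅, fun d hd => absurd ⟨d, hd⟩ hex⟩
  obtain ⟨D, hD⟩ := hD
  let rep : ℕ → ℕ := fun t => if h : ∃ z, (∀ i, z ≠ w i) ∧ Sw (rel S') z t then h.choose else 0
  let D' : Finset ℕ := D.image rep ∪ Finset.univ.image w
  have hD' : ∀ d, (Fm.tp p hp id).Sat S' (Fin.snoc w d : Fin (n + 1) → ℕ) →
      ∃ t ∈ D', ∀ φ : Fm T (n + 1), φ.Sat S' (Fin.snoc w d) ↔ φ.Sat S' (Fin.snoc w t) := by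
    intro d hd
    by_cases hw : ∃ i, w i = d
    · obtain ⟨i, rfl⟩ := hw
      exact ⟨w i, Finset.mem_union_right _ (Finset.mem_image_of_mem _ (Finset.mem_univ i)),
        fun φ => Iff.rfl⟩
    · push Not at hw
      obtain ⟨t, ht, ht'⟩ := hD d hd
      have hex : ∃ z, (∀ i, z ≠ w i) ∧ Sw (rel S') z t := ⟨d, fun i h => hw i h.symm, ht'⟩
      have hrep : rep t = hex.choose := dif_pos hex
      refine ⟨rep t, Finset.mem_union_left _ (Finset.mem_image_of_mem _ ht), fun φ => ?_⟩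
      have h1 : ∀ i, rep t ≠ w i := by rw [hrep]; exact hex.choose_spec.1
      have h2 : Sw (rel S') (rep t) t := by rw [hrep]; exact hex.choose_spec.2
      have h3 : Sw (rel S') d (rep t) := sw_trans ht' (sw_symm h2)
      have h4 := fm_iso hr (S := S') (S' := S') (Equiv.swap d (rep t))
        (fun n R s => h3 n R s) φ (Fin.snoc w d)
      have h5 : (fun i => Equiv.swap d (rep t) ((Fin.snoc w d : Fin (n + 1) → ℕ) i)) =
          (Fin.snoc w (rep t) : Fin (n + 1) → ℕ) := by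
        rw [comp_snoc, Equiv.swap_apply_left]
        congr 1
        funext i
        exact Equiv.swap_apply_of_ne_of_ne (fun h => hw i h) fun h => h1 i h.symm
      rw [h5] at h4
      exact h4
  obtain ⟨θ, hθ⟩ := conj_list (Fm.tp p hp id) ψ D'.toList
  have h1 : (Fm.not (Fm.all (Fm.not θ))).Sat S v := by
    intro h2
    refine h2 c ((hθ S _).2 ⟨fun φ hφ => hφ, fun d _ => hψ1 d⟩)
  have h2 := (h _).1 h1
  apply h2
  intro y hy
  obtain ⟨h3, h4⟩ := (hθ S' _).1 hy
  obtain ⟨t, ht, ht'⟩ := hD' y h3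
  exact hψ2 t ((ht' _).1 (h4 t (Finset.mem_toList.2 ht)))

/-- Models on `ℕ` with the same sentences of `L₁(T)` are isomorphic. -/
theorem isom_nat (hr : L.IsRelational) (hc : ∀ n, Countable (L.BoundedFormula Empty n))
    {T : L.Theory} (hFO : ∀ S : L.Structure ℕ, Mods S T → FO (rel S)) (S S' : L.Structure ℕ)
    (hS : Mods S T) (hS' : Mods S' T) (h : Eq1 T S S') : Isom S S' := by
  have htp : ∀ n v w, E1 T S S' n v w → TpEq S S' v w := fun n v w h φ => h (.fo φ)
  obtain ⟨e, he⟩ := bf (E1 T S S') h (fun n v w => forth hr hc hFO S S' hS hS' n v w)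
    (by
      intro n v w hvw d
      obtain ⟨c, hc'⟩ := forth hr hc hFO S' S hS' hS n w v (fun φ => (hvw φ).symm) d
      exact ⟨c, fun φ => (hc' φ).symm⟩)
    (fun n v w hvw i j => tp_eq (htp n v w hvw) i j)
  refine ⟨e, fun k R s => ?_⟩
  obtain ⟨n, v, w, f, h1, h2, h3⟩ := he k s
  have h4 := tp_rel (htp _ _ _ h1) R f
  have e1 : (fun i => v (f i)) = s := funext h2
  have e2 : (fun i => w (f i)) = fun i => e (s i) := funext h3
  rw [e1, e2] at h4
  exact h4

/-- The conjecture of Martin. -/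
theorem martin (hr : L.IsRelational) (hc : ∀ n, Countable (L.BoundedFormula Empty n))
    {T : L.Theory} (hFO : ∀ S : L.Structure ℕ, Mods S T → FO (rel S)) : Martin T := by
  intro M S S' hM hS' hE
  have hMinf : Infinite M := by
    by_contra hfin
    rw [not_infinite_iff_finite] at hfin
    have h7 : ∀ n : ℕ, (n : Cardinal) ≤ Cardinal.mk M := by
      intro n
      have h8 := (hE (Fm.fo (FirstOrder.Language.Sentence.cardGe L n))).2
      have h9 : @FirstOrder.Language.Sentence.Realize L ℕ S'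
          (FirstOrder.Language.Sentence.cardGe L n) :=
        (@FirstOrder.Language.Sentence.realize_cardGe L ℕ S' n).2 (by
          rw [Cardinal.mk_nat]
          exact Cardinal.natCast_lt_aleph0.le)
      have h10 := h8 ((sent_iff S' _ _).2 h9)
      exact (@FirstOrder.Language.Sentence.realize_cardGe L M S n).1 ((sent_iff S _ _).1 h10)
    have h8 := h7 (Nat.card M + 1)
    have h9 : Cardinal.mk M = (Nat.card M : Cardinal) := by
      rw [Nat.cast_card]
    rw [h9] at h8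
    have h10 : Nat.card M + 1 ≤ Nat.card M := by exact_mod_cast h8
    omega
  obtain ⟨e⟩ : Nonempty (M ≃ ℕ) := nonempty_equiv_of_countable
  have hmv := isom_move S e
  refine hmv.trans ?_
  have hE' : Eq1 T (Pool.Agent.W921.VP.move S e) S' := by
    intro φ
    rw [← hE φ, fm_iso hr e (fun n R s => move_rel S e n R s) φ Fin.elim0]
    exact iff_of_eq (congrArg _ (Subsingleton.elim _ _))
  have hmod : Mods (Pool.Agent.W921.VP.move S e) T := by
    rw [mods_iff _ T Fin.elim0]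
    intro φ hφ
    exact (hE' (Fm.fo φ)).2 ((mods_iff S' T Fin.elim0).1 hS' φ hφ)
  exact isom_nat hr hc hFO _ S' hmod hS' hE'

end Pool.Agent.H667.MF
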