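import Pool.Agent.H667.MF.Main
import Pool.Agent.H667.UF.Tame
import Pool.Agent.H667.FI.Rig

set_option autoImplicit false

/-!
The conjecture of Martin for the theories with few countable models whose classes of models are
closed under equivalence in the uniform one-dimensional fragment or in the forward fragment.
-/

namespace Pool.Agent.H667.MF

open FirstOrder FirstOrder.Language
open Pool.Agent.W921.VP (Mods Isom Few Martin)
open Pool.Agent.H667.UF (FO)
open Pool.Agent.H667.FI (IsAut Sw sw_refl sw_symm sw_trans)
open Pool.Agent.H834V (rel countable_relations)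
open Pool.Agent.H565R2.FO2 (Interp Code toI ofI toI_ofI Iso)

variable {L : FirstOrder.Language.{0, 0}}

theorem countable_formulas (hL : Countable L.Symbols) (n : ℕ) :
    Countable (L.BoundedFormula Empty n) := by
  have h1 : Cardinal.mk (Σ n, L.BoundedFormula Empty n) ≤ Cardinal.aleph0 := by
    refine FirstOrder.Language.BoundedFormula.card_le.trans ?_
    simp only [max_le_iff, le_refl, true_and]
    have : L.card ≤ Cardinal.aleph0 := Cardinal.mk_le_aleph0_iff.2 hL
    simpa using this
  have h2 : Countable (Σ n, L.BoundedFormula Empty n) := Cardinal.mk_le_aleph0_iff.1 h1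
  have hinj : Function.Injective
      (fun σ : L.BoundedFormula Empty n => (⟨n, σ⟩ : Σ n, L.BoundedFormula Empty n)) := by
    intro σ σ' h
    simpa using h
  exact hinj.countable

/-- The structure of a code. -/
@[reducible] def str (hr : L.IsRelational) (c : Code L) : L.Structure ℕ where
  funMap := fun {n} f => (hr n).elim f
  RelMap := fun {n} R t => c ⟨n, R, t⟩ = true

theorem rel_str (hr : L.IsRelational) (c : Code L) : rel (str hr c) = toI c := rfl

theorem iso_of_isom (hr : L.IsRelational) {c c' : Code L} (h : Isom (str hr c) (str hr c')) :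
    Iso c c' := by
  obtain ⟨e, he⟩ := h
  refine ⟨e, fun n R t => ?_⟩
  rw [Bool.eq_iff_iff]
  exact he n R t

/-- A family of structures contradicts fewness. -/
theorem not_few (hr : L.IsRelational) {T : L.Theory} (f : (ℕ → Bool) → Code L)
    (h1 : ∀ x, Mods (str hr (f x)) T) (h2 : ∀ x x', Iso (f x) (f x') → x = x') : ¬ Few T :=
  fun h => h ⟨fun x => str hr (f x), h1, fun x y hxy => h2 x y (iso_of_isom hr hxy)⟩

theorem uf1 (hL : Countable L.Symbols) (hr : L.IsRelational) {T : L.Theory}
    (hcl : ∀ S S' : L.Structure ℕ, Mods S T →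
      (∀ b, Pool.Agent.H667.UF.ty (rel S') b = Pool.Agent.H667.UF.ty (rel S) b) → Mods S' T)
    (hfew : Few T) : Martin T := by
  have hRc : ∀ n, Countable (L.Relations n) := countable_relations hL
  refine martin hr (countable_formulas hL) fun S hS => ?_
  refine Pool.Agent.H667.UF.tame ?_ ?_
  · rintro ⟨C⟩
    obtain ⟨f, -, h2, h3⟩ := C.perf
    exact not_few hr f (fun x => hcl S _ hS fun b => h2 x b) h3 hfew
  · intro c hc
    obtain ⟨f, -, h2, h3⟩ := hc.perf
    exact not_few hr f (fun x => hcl S _ hS fun b => h2 x b) h3 hfew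

theorem fwd (hL : Countable L.Symbols) (hr : L.IsRelational) {T : L.Theory}
    (hcl : ∀ S S' : L.Structure ℕ, Mods S T →
      Pool.Agent.H667.FI.ty (rel S') [] = Pool.Agent.H667.FI.ty (rel S) [] → Mods S' T)
    (hfew : Few T) : Martin T := by
  have hRc : ∀ n, Countable (L.Relations n) := countable_relations hL
  refine martin hr (countable_formulas hL) fun S hS => ?_
  have hE : Pool.Agent.H667.FI.Exch (rel S) := by
    refine Pool.Agent.H667.FI.exch ?_
    rintro ⟨C⟩
    obtain ⟨f, -, h2, h3⟩ := C.perf
    exact not_few hr f (fun x => hcl S _ hS (h2 x)) h3 hfew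
  intro x
  refine ⟨{x}, fun g hg => ⟨x, Finset.mem_singleton_self x, sw_symm (hE g hg x)⟩⟩

end Pool.Agent.H667.MF
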