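import Mathlib

set_option autoImplicit false

/-!
Ultrapowers are homogeneous.
-/

namespace Pool.Agent.H667.MF

open FirstOrder FirstOrder.Language

variable {L : FirstOrder.Language.{0, 0}}

/-- Truth of a formula. -/
def Rz {M : Type} (S : L.Structure M) {n : ℕ} (φ : L.BoundedFormula Empty n) (a : Fin n → M) :
    Prop := @BoundedFormula.Realize L M S Empty n φ Empty.elim a

/-- The tuples have the same complete type. -/
def TpEq {M N : Type} (S : L.Structure M) (S' : L.Structure N) {n : ℕ} (a : Fin n → M)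
    (b : Fin n → N) : Prop := ∀ φ : L.BoundedFormula Empty n, Rz S φ a ↔ Rz S' φ b

/-- Homogeneity for finite tuples. -/
def Homog {M : Type} (S : L.Structure M) : Prop :=
  ∀ (n : ℕ) (a b : Fin n → M), TpEq S S a b → ∀ c, ∃ d,
    TpEq S S (Fin.snoc a c : Fin (n + 1) → M) (Fin.snoc b d : Fin (n + 1) → M)

theorem rz_not {M : Type} (S : L.Structure M) {n : ℕ} (φ : L.BoundedFormula Empty n)
    (a : Fin n → M) : Rz S φ.not a ↔ ¬ Rz S φ a := by
  unfold Rz
  exact @BoundedFormula.realize_not L M S Empty n φ Empty.elim a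

/-- Finite satisfiability of a set of formulas in one more variable, as a formula. -/
noncomputable def exAll {n k : ℕ} (t : ℕ → L.BoundedFormula Empty (n + 1)) :
    L.BoundedFormula Empty n := (BoundedFormula.iInf fun l : Fin k => t l).ex

theorem rz_exAll {M : Type} (S : L.Structure M) {n k : ℕ} (t : ℕ → L.BoundedFormula Empty (n + 1))
    (a : Fin n → M) : Rz S (exAll (k := k) t) a ↔
      ∃ y, ∀ l < k, Rz S (t l) (Fin.snoc a y : Fin (n + 1) → M) := by
  unfold Rz exAll
  rw [@BoundedFormula.realize_ex L M S]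
  refine exists_congr fun y => ?_
  rw [@BoundedFormula.realize_iInf L M S]
  exact ⟨fun h l hl => h ⟨l, hl⟩, fun h l => h l l.2⟩

/-- The ultrapower. -/
theorem up (hc : ∀ n, Countable (L.BoundedFormula Empty n)) (S : L.Structure ℕ) :
    ∃ (V : Type) (S' : L.Structure V) (δ : ℕ → V), Function.Injective δ ∧
      (∀ (n : ℕ) (a : Fin n → ℕ), TpEq S S' a (fun i => δ (a i))) ∧ Homog S' := by
  classical
  letI := S
  let U : Ultrafilter ℕ := Filter.hyperfilter ℕ
  let V : Type := (U : Filter ℕ).Product (fun _ : ℕ => ℕ)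
  let S' : L.Structure V := inferInstance
  let mk : (ℕ → ℕ) → V := fun f => (Quotient.mk _ f : V)
  have hmk : ∀ x : V, ∃ f, mk f = x := fun x => Quotient.exists_rep x
  choose r hr using hmk
  have hcast : ∀ (n : ℕ) (φ : L.BoundedFormula Empty n) (a : Fin n → ℕ → ℕ),
      Rz S' φ (fun k => mk (a k)) ↔ ∀ᶠ i in (U : Filter ℕ), Rz S φ fun k => a k i := by
    intro n φ a
    have h1 := Ultraproduct.boundedFormula_realize_cast (u := U) (M := fun _ : ℕ => ℕ) φ
      (fun e : Empty => e.elim) a
    have e1 : (fun i : Empty => (Quotient.mk _ (i.elim : ℕ → ℕ) : V)) = Empty.elim :=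
      funext fun e => e.elim
    have h2 : Rz S' φ (fun k => mk (a k)) ↔ BoundedFormula.Realize φ
        (fun i : Empty => ((fun e : Empty => (e.elim : ℕ → ℕ)) i : (U : Filter ℕ).Product
          (fun _ : ℕ => ℕ))) (fun k => (a k : (U : Filter ℕ).Product (fun _ : ℕ => ℕ))) := by
      unfold Rz
      have e2 : (Empty.elim : Empty → V) = (fun i : Empty =>
        ((fun e : Empty => (e.elim : ℕ → ℕ)) i : (U : Filter ℕ).Product (fun _ : ℕ => ℕ))) :=
        funext fun e => e.elim
      rw [e2]
      exact Iff.rfl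
    rw [h2, h1]
    refine Filter.eventually_congr (Filter.Eventually.of_forall fun i => ?_)
    have e3 : (fun e : Empty => (e.elim : ℕ → ℕ) i) = Empty.elim := funext fun e => e.elim
    unfold Rz
    rw [← e3]
  have hkey : ∀ (n : ℕ) (φ : L.BoundedFormula Empty n) (a : Fin n → V),
      Rz S' φ a ↔ ∀ᶠ i in (U : Filter ℕ), Rz S φ fun k => r (a k) i := by
    intro n φ a
    rw [← hcast n φ fun k => r (a k)]
    have : (fun k => mk (r (a k))) = a := funext fun k => hr _
    rw [this]
  refine ⟨V, S', fun c => mk fun _ => c, ?_, ?_, ?_⟩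
  · intro c c' h
    have h1 : (fun _ : ℕ => c) =ᶠ[(U : Filter ℕ)] fun _ => c' := Quotient.exact h
    obtain ⟨i, hi⟩ := h1.exists
    exact hi
  · intro n a φ
    rw [hcast n φ fun k _ => a k]
    exact (Filter.eventually_const).symm
  · intro n a b hab c
    have : Countable (L.BoundedFormula Empty (n + 1)) := hc (n + 1)
    obtain ⟨e, he⟩ := exists_surjective_nat (L.BoundedFormula Empty (n + 1))
    let t : ℕ → L.BoundedFormula Empty (n + 1) := fun l =>
      if Rz S' (e l) (Fin.snoc a c : Fin (n + 1) → V) then e l else (e l).not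
    have ht : ∀ l, Rz S' (t l) (Fin.snoc a c : Fin (n + 1) → V) := by
      intro l
      by_cases h : Rz S' (e l) (Fin.snoc a c : Fin (n + 1) → V)
      · show Rz S' (if _ then _ else _) _
        rw [if_pos h]; exact h
      · show Rz S' (if _ then _ else _) _
        rw [if_neg h, rz_not]; exact h
    let P : ℕ → ℕ → Prop := fun i k =>
      ∃ y : ℕ, ∀ l < k, Rz S (t l) (Fin.snoc (fun m => r (b m) i) y : Fin (n + 1) → ℕ)
    have hP : ∀ k, ∀ᶠ i in (U : Filter ℕ), P i k := by
      intro k
      have h1 : Rz S' (exAll (k := k) t) a := (rz_exAll S' t a).2 ⟨c, fun l _ => ht l⟩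
      have h2 := (hkey n _ b).1 ((hab _).1 h1)
      exact h2.mono fun i hi => (rz_exAll S t _).1 hi
    have hP0 : ∀ i, P i 0 := fun i => ⟨0, fun l hl => absurd hl (Nat.not_lt_zero l)⟩
    have hK : ∀ i, P i (Nat.findGreatest (P i) i) := fun i =>
      Nat.findGreatest_spec (P := P i) (Nat.zero_le i) (hP0 i)
    choose d hd using hK
    have hge : ∀ k, ∀ᶠ i in (U : Filter ℕ), k ≤ i := by
      intro k
      have h1 : ∀ᶠ i in (Filter.cofinite : Filter ℕ), k ≤ i := by
        rw [Nat.cofinite_eq_atTop]
        exact Filter.eventually_ge_atTop k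
      exact Filter.hyperfilter_le_cofinite h1
    have htd : ∀ l, Rz S' (t l) (Fin.snoc b (mk d) : Fin (n + 1) → V) := by
      intro l
      have e1 : (Fin.snoc b (mk d) : Fin (n + 1) → V) =
          fun k => mk ((Fin.snoc (fun m => r (b m)) d : Fin (n + 1) → ℕ → ℕ) k) := by
        funext k
        refine Fin.lastCases ?_ (fun k => ?_) k
        · simp
        · simp [hr]
      rw [e1, hcast]
      refine ((hP (l + 1)).and (hge (l + 1))).mono fun i hi => ?_
      have h1 : l + 1 ≤ Nat.findGreatest (P i) i := Nat.le_findGreatest hi.2 hi.1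
      have h2 := hd i l (by omega)
      have e2 : (fun k => (Fin.snoc (fun m => r (b m)) d : Fin (n + 1) → ℕ → ℕ) k i) =
          (Fin.snoc (fun m => r (b m) i) (d i) : Fin (n + 1) → ℕ) := by
        funext k
        refine Fin.lastCases ?_ (fun k => ?_) k
        · simp
        · simp
      rw [e2]
      exact h2
    refine ⟨mk d, fun φ => ?_⟩
    obtain ⟨l, rfl⟩ := he φ
    have h3 := htd l
    by_cases h : Rz S' (e l) (Fin.snoc a c : Fin (n + 1) → V)
    · have : t l = e l := if_pos h
      rw [this] at h3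
      exact ⟨fun _ => h3, fun _ => h⟩
    · have : t l = (e l).not := if_neg h
      rw [this, rz_not] at h3
      exact ⟨fun h' => absurd h' h, fun h' => absurd h' h3⟩

end Pool.Agent.H667.MF
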